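import Pool.Agent.W217.BE.Stm2

set_option autoImplicit false

namespace Pool.Agent.W594.BEG2FALSE

open Pool.Agent.W217.BE Polynomial

/-- evaluation of the variable `0` at `1`. -/
noncomputable def th (A : Type) [CommRing A] (k : ℕ) :
    MvPolynomial (Fin (k + 1)) A →+* MvPolynomial (Fin k) A :=
  (Polynomial.evalRingHom 1).comp (MvPolynomial.finSuccEquiv A k).toRingEquiv.toRingHom

theorem th_apply (A : Type) [CommRing A] (k : ℕ) (s : MvPolynomial (Fin (k + 1)) A) :
    th A k s = ((MvPolynomial.finSuccEquiv A k) s).eval 1 := rfl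

theorem th_C (A : Type) [CommRing A] (k : ℕ) (a : A) :
    th A k (MvPolynomial.C a) = MvPolynomial.C a := by
  rw [th_apply, ← MvPolynomial.algebraMap_eq, AlgEquiv.commutes]
  simp [Polynomial.algebraMap_apply]

theorem th_X0 (A : Type) [CommRing A] (k : ℕ) :
    th A k (MvPolynomial.X 0) = 1 := by
  rw [th_apply, MvPolynomial.finSuccEquiv_X_zero]; simp

theorem th_Xs (A : Type) [CommRing A] (k : ℕ) (j : Fin k) :
    th A k (MvPolynomial.X j.succ) = MvPolynomial.X j := by
  rw [th_apply, MvPolynomial.finSuccEquiv_X_succ]; simp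

theorem th_mon (A : Type) [CommRing A] (k : ℕ) (α : Fin (k + 1) →₀ ℕ) (a : A) :
    th A k (MvPolynomial.monomial α a) = MvPolynomial.monomial α.tail a := by
  rw [MvPolynomial.monomial_eq, MvPolynomial.monomial_eq, map_mul, th_C]
  congr 1
  rw [Finsupp.prod_fintype _ _ (by intro i; simp), Finsupp.prod_fintype _ _ (by intro i; simp),
    map_prod, Fin.prod_univ_succ, map_pow, th_X0, one_pow, one_mul]
  apply Finset.prod_congr rfl
  intro j _
  rw [map_pow, th_Xs]
  rfl

theorem chi_th {A κ : Type} [CommRing A] [Field κ] (χ : A →+* κ) (k : ℕ)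
    (J : Fin (k + 1) → Bool) (hJ : J 0 = false) (s : MvPolynomial (Fin (k + 1)) A) :
    chiJ χ J s = chiJ χ (fun j => J (Fin.succ j)) (th A k s) := by
  have h : chiJ χ J = (chiJ χ (fun j => J (Fin.succ j))).comp (th A k) := by
    apply MvPolynomial.ringHom_ext
    · intro a
      rw [RingHom.comp_apply, th_C]
      simp [chiJ]
    · intro i
      refine Fin.cases ?_ (fun j => ?_) i
      · rw [RingHom.comp_apply, th_X0]
        simp [chiJ, hJ]
      · rw [RingHom.comp_apply, th_Xs]
        simp [chiJ]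
  rw [h, RingHom.comp_apply]

/-- action on a module on which `X 0` is the identity. -/
theorem act {A : Type} [CommRing A] (k : ℕ) (M' : Type) [AddCommGroup M']
    [Module (MvPolynomial (Fin (k + 1)) A) M']
    (h0 : ∀ m : M', (MvPolynomial.X 0 : MvPolynomial (Fin (k + 1)) A) • m = m)
    (s : MvPolynomial (Fin (k + 1)) A) (m : M') :
    s • m = (MvPolynomial.rename Fin.succ (th A k s) : MvPolynomial (Fin (k + 1)) A) • m := by
  induction s using MvPolynomial.induction_on generalizing m with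
  | C a => rw [th_C, MvPolynomial.rename_C]
  | add p q hp hq => rw [add_smul, hp, hq, map_add, map_add, add_smul]
  | mul_X p i hp =>
    rw [mul_smul, hp, map_mul, map_mul, mul_smul]
    congr 1
    revert i
    intro i
    refine Fin.cases ?_ (fun j => ?_) i
    · rw [th_X0, map_one, one_smul, h0]
    · rw [th_Xs, MvPolynomial.rename_X]

theorem fin_of {S T : Type} [CommRing S] [CommRing T] (M : Type) [AddCommGroup M] [Module S M]
    [Module T M] [Module.Finite S M] (h : ∀ s : S, ∃ t : T, ∀ x : M, s • x = t • x) :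
    Module.Finite T M := by
  obtain ⟨F, hF⟩ := Module.Finite.fg_top (R := S) (M := M)
  refine ⟨⟨F, ?_⟩⟩
  rw [eq_top_iff]
  rintro x -
  have hx : x ∈ Submodule.span S (F : Set M) := by rw [hF]; trivial
  induction hx using Submodule.span_induction with
  | mem y hy => exact Submodule.subset_span hy
  | zero => exact Submodule.zero_mem _
  | add y z _ _ hy hz => exact Submodule.add_mem _ hy hz
  | smul s y _ hy =>
    obtain ⟨t, ht⟩ := h s
    rw [ht]
    exact Submodule.smul_mem _ _ hy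


theorem cons_succ {k : ℕ} (t : ℤ) (b : Fin k → ℤ) (j : Fin k) :
    ((Fin.cons t b : Fin (k + 1) → ℤ) + Pi.single j.succ 1) = Fin.cons t (b + Pi.single j 1) := by
  funext i
  refine Fin.cases ?_ (fun l => ?_) i
  · simp [Pi.single_apply, Fin.succ_ne_zero, eq_comm]
  · by_cases h : l = j
    · subst h; simp
    · simp [Pi.single_apply, h, Fin.succ_inj]

theorem cons_zero {k : ℕ} (t : ℤ) (b : Fin k → ℤ) :
    ((Fin.cons t b : Fin (k + 1) → ℤ) + Pi.single 0 1) = Fin.cons (t + 1) b := by
  funext i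
  refine Fin.cases ?_ (fun l => ?_) i
  · simp
  · simp [Pi.single_apply, Fin.succ_ne_zero]

section gr

variable {A : Type} [CommRing A] {k : ℕ} {M : Type} [AddCommGroup M] [Module A M]
  [Module (MvPolynomial (Fin (k + 1)) A) M] [IsScalarTower A (MvPolynomial (Fin (k + 1)) A) M]
  (ℳ : (Fin (k + 1) → ℤ) → Submodule A M)

theorem smul_X_sup {I I' : Type} (p : I → Submodule A M) (q : I' → Submodule A M)
    (f : M →+ M) (h : ∀ i x, x ∈ p i → ∃ i', f x ∈ q i') (x : M) (hx : x ∈ ⨆ i, p i) :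
    f x ∈ ⨆ i, q i := by
  induction hx using Submodule.iSup_induction' with
  | mem i x hx =>
    obtain ⟨i', hi'⟩ := h i x hx
    exact Submodule.mem_iSup_of_mem i' hi'
  | zero => rw [map_zero]; exact Submodule.zero_mem _
  | add x y _ _ hx hy => rw [map_add]; exact Submodule.add_mem _ hx hy

theorem ren_mem
    (hX : ∀ j a x, x ∈ ℳ a →
      (MvPolynomial.X j : MvPolynomial (Fin (k + 1)) A) • x ∈ ℳ (a + Pi.single j 1))
    (t : ℤ) (q : MvPolynomial (Fin k) A) (x : M) (hx : x ∈ ⨆ b : Fin k → ℤ, ℳ (Fin.cons t b)) :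
    (MvPolynomial.rename Fin.succ q : MvPolynomial (Fin (k + 1)) A) • x ∈
      ⨆ b : Fin k → ℤ, ℳ (Fin.cons t b) := by
  induction q using MvPolynomial.induction_on generalizing x with
  | C a =>
    rw [MvPolynomial.rename_C, ← MvPolynomial.algebraMap_eq, algebraMap_smul]
    exact Submodule.smul_mem _ _ hx
  | add p q hp hq => rw [map_add, add_smul]; exact Submodule.add_mem _ (hp x hx) (hq x hx)
  | mul_X p j hp =>
    rw [map_mul, mul_smul, MvPolynomial.rename_X]
    apply hp
    refine smul_X_sup (fun b : Fin k → ℤ => ℳ (Fin.cons t b))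
      (fun b : Fin k → ℤ => ℳ (Fin.cons t b))
      (DistribSMul.toAddMonoidHom M (MvPolynomial.X j.succ : MvPolynomial (Fin (k + 1)) A))
      (fun b y hy => ⟨b + Pi.single j 1, ?_⟩) x hx
    rw [← cons_succ]
    exact hX _ _ _ hy

end gr

theorem core {A κ : Type} [CommRing A] [IsNoetherianRing A] [Field κ] (χ : A →+* κ) (c k : ℕ)
    (J : Fin (k + 1) → Bool) (hJ : J 0 = false) (IH : G2 χ c (fun j => J (Fin.succ j)))
    (hISO : ISO) (hDEHOM : DEHOM) (hDNZ : DNZ) (hZREG : ZREG) (hREGR0 : REGR0)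
    (hREGR1 : REGR1) (hQGR : QGR) (hINTCAR : INTCAR)
    (M : Type) [AddCommGroup M] [Module A M] [Module (MvPolynomial (Fin (k + 1)) A) M]
    [IsScalarTower A (MvPolynomial (Fin (k + 1)) A) M]
    [Module.Finite (MvPolynomial (Fin (k + 1)) A) M]
    [Module (MvPolynomial (Fin k) A)[X] M] [Module (MvPolynomial (Fin k) A) M]
    [IsScalarTower (MvPolynomial (Fin k) A) (MvPolynomial (Fin k) A)[X] M]
    (hCX : ∀ (p : (MvPolynomial (Fin k) A)[X]) (x : M),
      p • x = (MvPolynomial.finSuccEquiv A k).symm p • x)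
    (hC : ∀ (q : MvPolynomial (Fin k) A) (x : M),
      q • x = (MvPolynomial.rename Fin.succ q : MvPolynomial (Fin (k + 1)) A) • x)
    (M' : Type) [AddCommGroup M'] [Module A M'] [Module (MvPolynomial (Fin (k + 1)) A) M']
    [IsScalarTower A (MvPolynomial (Fin (k + 1)) A) M']
    [Module (MvPolynomial (Fin k) A) M']
    [IsScalarTower A (MvPolynomial (Fin k) A) M']
    (hC' : ∀ (q : MvPolynomial (Fin k) A) (m : M'),
      q • m = (MvPolynomial.rename Fin.succ q : MvPolynomial (Fin (k + 1)) A) • m)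
    (ρ : M →ₗ[MvPolynomial (Fin (k + 1)) A] M') (hρ : Function.Surjective ρ)
    (hker : ∀ x, ρ x = 0 →
      ∃ y, x = (MvPolynomial.X 0 - 1 : MvPolynomial (Fin (k + 1)) A) • y)
    (hker' : ∀ y, ρ ((MvPolynomial.X 0 - 1 : MvPolynomial (Fin (k + 1)) A) • y) = 0)
    (ℳ : (Fin (k + 1) → ℤ) → Submodule A M) (hint : DirectSum.IsInternal ℳ)
    (hX : ∀ j a x, x ∈ ℳ a →
      (MvPolynomial.X j : MvPolynomial (Fin (k + 1)) A) • x ∈ ℳ (a + Pi.single j 1))
    (hnz : NZ (chiJ χ J) M) (hnil : NIL χ J M) (hbase : BASEH χ c J M) :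
    HB (chiJ χ J) M (fun i => (c + ∑ j, if J j = true then 1 else 0).choose i) := by
  classical
  -- action on the quotient
  have h0 : ∀ m : M', (MvPolynomial.X 0 : MvPolynomial (Fin (k + 1)) A) • m = m := by
    intro m
    obtain ⟨x, rfl⟩ := hρ m
    have := hker' x
    rw [map_smul, sub_smul, one_smul, sub_eq_zero] at this
    exact this
  have hact : ∀ (s : MvPolynomial (Fin (k + 1)) A) (m : M'), s • m = th A k s • m := by
    intro s m
    rw [act k M' h0 s m, hC']
  have hth : ∀ p : (MvPolynomial (Fin k) A)[X],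
      th A k ((MvPolynomial.finSuccEquiv A k).symm p) = p.eval 1 := by
    intro p; rw [th_apply, AlgEquiv.apply_symm_apply]
  have hsX : (MvPolynomial.finSuccEquiv A k).symm (X - 1 : (MvPolynomial (Fin k) A)[X]) =
      MvPolynomial.X 0 - 1 := by
    rw [AlgEquiv.symm_apply_eq, map_sub, map_one, MvPolynomial.finSuccEquiv_X_zero]
  have hsX' : (MvPolynomial.finSuccEquiv A k).symm (X : (MvPolynomial (Fin k) A)[X]) =
      MvPolynomial.X 0 := by
    rw [AlgEquiv.symm_apply_eq, MvPolynomial.finSuccEquiv_X_zero]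
  have hρs : ∀ (s : (MvPolynomial (Fin k) A)[X]) (x : M), ρ (s • x) = s.eval 1 • ρ x := by
    intro s x
    rw [hCX, map_smul, hact, hth]
  have hkerX : ∀ x, ρ x = 0 → ∃ y, x = (X - 1 : (MvPolynomial (Fin k) A)[X]) • y := by
    intro x hx
    obtain ⟨y, hy⟩ := hker x hx
    exact ⟨y, by rw [hCX, hsX]; exact hy⟩
  have hfinX : Module.Finite (MvPolynomial (Fin k) A)[X] M := by
    apply fin_of (S := MvPolynomial (Fin (k + 1)) A)
    intro s
    refine ⟨MvPolynomial.finSuccEquiv A k s, fun x => ?_⟩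
    rw [hCX, AlgEquiv.symm_apply_apply]
  have hfinS : Module.Finite (MvPolynomial (Fin (k + 1)) A) M' :=
    Module.Finite.of_surjective ρ hρ
  have hfin' : Module.Finite (MvPolynomial (Fin k) A) M' := by
    apply fin_of (S := MvPolynomial (Fin (k + 1)) A)
    intro s
    exact ⟨th A k s, fun x => hact s x⟩
  -- regularity
  have hreg : ∀ x : M, (X - 1 : (MvPolynomial (Fin k) A)[X]) • x = 0 → x = 0 := by
    have hD := (hREGR0 A k M ℳ hint).1
    let N : ℤ → Submodule (MvPolynomial (Fin k) A) M := fun t =>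
      { carrier := {x | x ∈ ⨆ b : Fin k → ℤ, ℳ (Fin.cons t b)}
        add_mem' := fun {x y} hx hy => by
          show x + y ∈ ⨆ b : Fin k → ℤ, ℳ (Fin.cons t b)
          exact Submodule.add_mem _ hx hy
        zero_mem' := by
          show (0 : M) ∈ ⨆ b : Fin k → ℤ, ℳ (Fin.cons t b)
          exact Submodule.zero_mem _
        smul_mem' := fun q x hx => by
          rw [hC]
          exact ren_mem ℳ hX t q x hx }
    refine hZREG (MvPolynomial (Fin k) A) M N
      (hINTCAR A (MvPolynomial (Fin k) A) ℤ M _ N (fun t x => Iff.rfl) hD) ?_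
    intro t x hx
    rw [hCX, hsX']
    refine smul_X_sup (fun b : Fin k → ℤ => ℳ (Fin.cons t b))
      (fun b : Fin k → ℤ => ℳ (Fin.cons (t + 1) b))
      (DistribSMul.toAddMonoidHom M (MvPolynomial.X 0 : MvPolynomial (Fin (k + 1)) A))
      (fun b y hy => ⟨b, ?_⟩) x hx
    rw [← cons_zero]
    exact hX _ _ _ hy
  -- grading of the quotient
  have hD1 := hREGR1 A k M ℳ hint
  let φ : M →ₗ[A] M :=
    (LinearMap.lsmul (MvPolynomial (Fin (k + 1)) A) M (MvPolynomial.X 0 - 1)).restrictScalars A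
  have hφ : ∀ x, φ x = (MvPolynomial.X 0 - 1 : MvPolynomial (Fin (k + 1)) A) • x :=
    fun x => rfl
  let ρA : M →ₗ[A] M' := ρ.restrictScalars A
  have hρA : ∀ x, ρA x = ρ x := fun x => rfl
  have hX0D : ∀ (b : Fin k → ℤ) (x : M), x ∈ (⨆ t : ℤ, ℳ (Fin.cons t b)) →
      (MvPolynomial.X 0 : MvPolynomial (Fin (k + 1)) A) • x ∈ ⨆ t : ℤ, ℳ (Fin.cons t b) := by
    intro b x hx
    refine smul_X_sup (fun t : ℤ => ℳ (Fin.cons t b))
      (fun t : ℤ => ℳ (Fin.cons t b))
      (DistribSMul.toAddMonoidHom M (MvPolynomial.X 0 : MvPolynomial (Fin (k + 1)) A))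
      (fun t y hy => ⟨t + 1, ?_⟩) x hx
    rw [← cons_zero]
    exact hX _ _ _ hy
  have hgr' := hQGR A (Fin k → ℤ) M M' (fun b : Fin k → ℤ => ⨆ t : ℤ, ℳ (Fin.cons t b)) φ ρA
    hD1 (fun b x hx => by
      rw [hφ, sub_smul, one_smul]
      exact Submodule.sub_mem _ (hX0D b x hx) hx) hρ (by
      ext x
      rw [LinearMap.mem_ker, LinearMap.mem_range, hρA]
      constructor
      · intro hx
        obtain ⟨y, hy⟩ := hker x hx
        exact ⟨y, by rw [hφ, ← hy]⟩
      · rintro ⟨y, rfl⟩
        rw [hφ]; exact hker' y)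
  have hXs : ∀ (j : Fin k) (a : Fin k → ℤ) (x : M'),
      x ∈ (⨆ t : ℤ, ℳ (Fin.cons t a)).map ρA →
      (MvPolynomial.X j : MvPolynomial (Fin k) A) • x ∈
        (⨆ t : ℤ, ℳ (Fin.cons t (a + Pi.single j 1))).map ρA := by
    rintro j a _ ⟨y, hy, rfl⟩
    refine ⟨(MvPolynomial.X j.succ : MvPolynomial (Fin (k + 1)) A) • y, ?_, ?_⟩
    · refine smul_X_sup (fun t : ℤ => ℳ (Fin.cons t a))
        (fun t : ℤ => ℳ (Fin.cons t (a + Pi.single j 1)))
        (DistribSMul.toAddMonoidHom M (MvPolynomial.X j.succ : MvPolynomial (Fin (k + 1)) A))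
        (fun t y hy => ⟨t, ?_⟩) y hy
      rw [← cons_succ]
      exact hX _ _ _ hy
    · rw [hρA, hρA, map_smul, hact, th_Xs]
  -- induction hypothesis
  have hkill : ∀ (s : MvPolynomial (Fin (k + 1)) A), (∀ x : M, s • x = 0) →
      ∀ m : M', th A k s • m = 0 := by
    intro s hs m
    obtain ⟨x, rfl⟩ := hρ m
    rw [← hact, ← map_smul, hs, map_zero]
  have hB' := IH M' (fun b => (⨆ t : ℤ, ℳ (Fin.cons t b)).map ρA) hgr' hXs
    (hDNZ (MvPolynomial (Fin k) A) κ (chiJ χ (fun j => J (Fin.succ j))) M M' ρ.toAddMonoidHom hρ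
      hρs hkerX (by
        obtain ⟨x, hx⟩ := hnz
        refine ⟨x, fun s hs => ?_⟩
        rw [hCX]
        apply hx
        rw [chi_th χ k J hJ, hth]
        exact hs))
    (by
      intro j hj
      obtain ⟨n, s, hs, hs'⟩ := hnil j.succ hj
      refine ⟨n, th A k s, ?_, fun m => ?_⟩
      · rw [← chi_th χ k J hJ]; exact hs
      · have := hkill _ hs' m
        rw [map_mul, map_pow, th_Xs] at this
        exact this)
    (by
      intro N _ _ _ hN hKil
      apply hbase N hN
      rintro a ⟨α, hα, hα'⟩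
      apply hKil
      refine ⟨α.tail, fun j hj => hα j.succ hj, fun m => ?_⟩
      have := hkill _ hα' m
      rw [th_mon] at this
      exact this)
  have hB1 := hDEHOM (MvPolynomial (Fin k) A) κ (chiJ χ (fun j => J (Fin.succ j))) M M'
    ρ.toAddMonoidHom _ hρ hρs hkerX hreg hB'
  have hB2 := hISO (MvPolynomial (Fin k) A)[X] (MvPolynomial (Fin (k + 1)) A) κ
    (MvPolynomial.finSuccEquiv A k).symm.toRingEquiv
    ((chiJ χ (fun j => J (Fin.succ j))).comp (Polynomial.evalRingHom 1)) (chiJ χ J) M M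
    (AddEquiv.refl M) _ (by
      intro s
      have := chi_th χ k J hJ ((MvPolynomial.finSuccEquiv A k).symm s)
      rw [hth] at this
      exact this) (by
      intro s x
      exact hCX s x) hB1
  have hsum : (∑ j, if J j = true then 1 else 0) =
      (∑ j : Fin k, if J (Fin.succ j) = true then 1 else 0 : ℕ) := by
    rw [Fin.sum_univ_succ, hJ]; simp
  rw [hsum]
  exact hB2

theorem main : ISO → DEHOM → DNZ → ZREG → REGR0 → REGR1 → QGR → INTCAR → G2FALSE := by
  intro hISO hDEHOM hDNZ hZREG hREGR0 hREGR1 hQGR hINTCAR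
  intro A κ _ _ _ χ c k J hJ IH M _ _ _ _ _ ℳ hint hX hnz hnil hbase
  let e := MvPolynomial.finSuccEquiv A k
  letI iX : Module (MvPolynomial (Fin k) A)[X] M :=
    Module.compHom M (e.symm.toRingEquiv.toRingHom)
  letI iC : Module (MvPolynomial (Fin k) A) M :=
    Module.compHom M (MvPolynomial.rename (R := A) (Fin.succ : Fin k → Fin (k + 1))).toRingHom
  have hCX : ∀ (p : (MvPolynomial (Fin k) A)[X]) (x : M),
      p • x = (MvPolynomial.finSuccEquiv A k).symm p • x := fun p x => rfl
  have hC : ∀ (q : MvPolynomial (Fin k) A) (x : M),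
      q • x = (MvPolynomial.rename Fin.succ q : MvPolynomial (Fin (k + 1)) A) • x :=
    fun q x => rfl
  have : IsScalarTower (MvPolynomial (Fin k) A) (MvPolynomial (Fin k) A)[X] M := by
    constructor
    intro q p x
    rw [hCX, hCX, hC, Polynomial.smul_eq_C_mul, map_mul, mul_smul]
    congr 1
    rw [AlgEquiv.symm_apply_eq]
    have : ∀ q : MvPolynomial (Fin k) A, Polynomial.C q =
        (MvPolynomial.finSuccEquiv A k) (MvPolynomial.rename Fin.succ q) := by
      intro q
      induction q using MvPolynomial.induction_on with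
      | C a =>
        rw [MvPolynomial.rename_C, ← MvPolynomial.algebraMap_eq, ← MvPolynomial.algebraMap_eq,
          AlgEquiv.commutes]
        rfl
      | add p q hp hq => rw [map_add, map_add, map_add, hp, hq]
      | mul_X p j hp =>
        rw [map_mul, map_mul, map_mul, hp, MvPolynomial.rename_X,
          MvPolynomial.finSuccEquiv_X_succ]
    exact this q
  let R : Submodule (MvPolynomial (Fin (k + 1)) A) M :=
    LinearMap.range (LinearMap.lsmul (MvPolynomial (Fin (k + 1)) A) M (MvPolynomial.X 0 - 1))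
  letI iC' : Module (MvPolynomial (Fin k) A) (M ⧸ R) :=
    Module.compHom (M ⧸ R)
      (MvPolynomial.rename (R := A) (Fin.succ : Fin k → Fin (k + 1))).toRingHom
  have hC' : ∀ (q : MvPolynomial (Fin k) A) (m : M ⧸ R),
      q • m = (MvPolynomial.rename Fin.succ q : MvPolynomial (Fin (k + 1)) A) • m :=
    fun q m => rfl
  have : IsScalarTower A (MvPolynomial (Fin k) A) (M ⧸ R) := by
    constructor
    intro a q m
    rw [hC', hC', map_smul, smul_assoc]
  refine core χ c k J hJ IH hISO hDEHOM hDNZ hZREG hREGR0 hREGR1 hQGR hINTCAR M hCX hC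
    (M ⧸ R) hC' R.mkQ (Submodule.mkQ_surjective R) ?_ ?_ ℳ hint hX hnz hnil hbase
  · intro x hx
    rw [Submodule.mkQ_apply, Submodule.Quotient.mk_eq_zero] at hx
    obtain ⟨y, hy⟩ := hx
    exact ⟨y, hy.symm⟩
  · intro y
    rw [Submodule.mkQ_apply, Submodule.Quotient.mk_eq_zero]
    exact ⟨y, rfl⟩

end Pool.Agent.W594.BEG2FALSE
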