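import Mathlib

set_option autoImplicit false

/-! A combinatorial lemma: no vector of norm one in the rank two form over `ℤ[C_n]`. -/

namespace Pool.Agent.W594.Herm

open Finset

/-- no pair `(r, y)` of total norm `25` -/
theorem no_norm_one (n : ℕ) [NeZero n] (m : ZMod n)
    (hm : ∀ a : ℕ, 0 < a → a ≤ 10 → (a : ZMod n) * m ≠ 0)
    (a r y : ZMod n → ℤ)
    (hr : ∀ k, r k = 25 * a k + 7 * y k + 10 * (y (k - m) - y (k + m)))
    (hsum : ∑ k, (r k ^ 2 + y k ^ 2) = 25) : False := by
  have hm0 : m ≠ 0 := by
    have := hm 1 one_pos (by norm_num)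
    simpa using this
  -- basic facts
  have h5 : ∀ k, (5 : ℤ) ∣ r k ^ 2 + y k ^ 2 := by
    intro k
    rw [hr k]
    refine ⟨5 * (25 * a k ^ 2 + 14 * a k * y k + 20 * a k * (y (k - m) - y (k + m)) +
      4 * (y (k - m) - y (k + m)) ^ 2) + 28 * y k * (y (k - m) - y (k + m)) + 10 * y k ^ 2, ?_⟩
    ring
  have hnn : ∀ k, 0 ≤ r k ^ 2 + y k ^ 2 := fun k => by positivity
  by_cases hall : ∀ k, (5 : ℤ) ∣ y k
  · -- all divisible by five
    choose z hz using hall
    have hr' : ∀ k, r k = 5 * (5 * a k + 7 * z k + 10 * (z (k - m) - z (k + m))) := by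
      intro k
      rw [hr k, hz k, hz (k - m), hz (k + m)]
      ring
    have h1 : ∑ k, ((5 * a k + 7 * z k + 10 * (z (k - m) - z (k + m))) ^ 2 + z k ^ 2) = 1 := by
      have : (25 : ℤ) * ∑ k, ((5 * a k + 7 * z k + 10 * (z (k - m) - z (k + m))) ^ 2 + z k ^ 2)
          = ∑ k, (r k ^ 2 + y k ^ 2) := by
        rw [mul_sum]
        refine sum_congr rfl fun k _ => ?_
        rw [hr' k, hz k]
        ring
      linarith
    have h2 : (5 : ℤ) ∣ ∑ k, ((5 * a k + 7 * z k + 10 * (z (k - m) - z (k + m))) ^ 2 + z k ^ 2) := by
      refine dvd_sum fun k _ => ?_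
      refine ⟨5 * a k ^ 2 + 14 * a k * z k + 20 * a k * (z (k - m) - z (k + m)) +
        20 * (z (k - m) - z (k + m)) ^ 2 + 28 * z k * (z (k - m) - z (k + m)) + 10 * z k ^ 2, ?_⟩
      ring
    rw [h1] at h2
    omega
  · push Not at hall
    obtain ⟨k0, hk0⟩ := hall
    -- find a good position
    have hgood : ∃ k, ¬ (5 : ℤ) ∣ y k ∧ (5 : ℤ) ∣ y (k + m) ∧ (5 : ℤ) ∣ y (k + 2 * m) := by
      by_contra hcon
      push Not at hcon
      -- a walk
      have hwalk : ∀ j : ℕ, ∃ s : ℕ → ℕ, (∀ i, i < j → s i < s (i + 1)) ∧ (∀ i, i ≤ j → s i ≤ 2 * i) ∧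
          ∀ i, i ≤ j → ¬ (5 : ℤ) ∣ y (k0 + (s i : ZMod n) * m) := by
        intro j
        induction j with
        | zero =>
          refine ⟨fun _ => 0, fun i hi => absurd hi (by omega), fun i _ => by simp, fun i _ => by simpa using hk0⟩
        | succ j ih =>
          obtain ⟨s, hs1, hs2, hs3⟩ := ih
          have h := hcon (k0 + (s j : ZMod n) * m) (hs3 j le_rfl)
          have hex : ∃ t : ℕ, s j < t ∧ t ≤ s j + 2 ∧ ¬ (5 : ℤ) ∣ y (k0 + (t : ZMod n) * m) := by
            by_cases h1 : (5 : ℤ) ∣ y (k0 + (s j : ZMod n) * m + m)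
            · refine ⟨s j + 2, by omega, by omega, ?_⟩
              have := h h1
              convert this using 3
              push_cast
              ring
            · refine ⟨s j + 1, by omega, by omega, ?_⟩
              convert h1 using 3
              push_cast
              ring
          obtain ⟨t, ht1, ht2, ht3⟩ := hex
          refine ⟨fun i => if i ≤ j then s i else t, ?_, ?_, ?_⟩
          · intro i hi
            rcases Nat.lt_or_ge i j with h' | h'
            · simp only [h'.le, if_true, Nat.succ_le_of_lt h']
              exact hs1 i h'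
            · have : i = j := by omega
              subst this
              simpa using ht1
          · intro i hi
            by_cases h' : i ≤ j
            · simp only [h', if_true]
              exact hs2 i h'
            · have : i = j + 1 := by omega
              subst this
              simp only [h', if_false]
              have := hs2 j le_rfl
              omega
          · intro i hi
            by_cases h' : i ≤ j
            · simp only [h', if_true]
              exact hs3 i h'
            · simp only [h', if_false]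
              exact ht3
      obtain ⟨s, hs1, hs2, hs3⟩ := hwalk 5
      have hmono : ∀ i j, i < j → j ≤ 5 → s i < s j := by
        intro i j hij hj
        induction j with
        | zero => omega
        | succ j ih =>
          rcases Nat.lt_or_ge i j with h' | h'
          · exact (ih h' (by omega)).trans (hs1 j (by omega))
          · have : i = j := by omega
            subst this
            exact hs1 i (by omega)
      have hinj : Set.InjOn (fun i : ℕ => k0 + (s i : ZMod n) * m) (range 6 : Finset ℕ) := by
        have key : ∀ i j : ℕ, i < j → j < 6 → k0 + (s i : ZMod n) * m ≠ k0 + (s j : ZMod n) * m := by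
          intro i j hij hj heq
          have h1 := hmono i j hij (by omega)
          have h2 := hs2 j (by omega)
          apply hm (s j - s i) (by omega) (by omega)
          rw [Nat.cast_sub h1.le, sub_mul]
          have := add_left_cancel heq
          rw [this, sub_self]
        intro i hi j hj heq
        simp only [coe_range, Set.mem_Iio] at hi hj
        rcases lt_trichotomy i j with h' | h' | h'
        · exact absurd heq (key i j h' hj)
        · exact h'
        · exact absurd heq.symm (key j i h' hi)
      have hle : ∑ k ∈ (range 6).image (fun i : ℕ => k0 + (s i : ZMod n) * m), (r k ^ 2 + y k ^ 2) ≤ 25 := by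
        rw [← hsum]
        exact sum_le_univ_sum_of_nonneg hnn
      rw [sum_image hinj] at hle
      have hge : ∀ i ∈ range 6, (5 : ℤ) ≤ r (k0 + (s i : ZMod n) * m) ^ 2 +
          y (k0 + (s i : ZMod n) * m) ^ 2 := by
        intro i hi
        have hi' : i ≤ 5 := by have := mem_range.1 hi; omega
        have h1 := hs3 i hi'
        have h2 : y (k0 + (s i : ZMod n) * m) ≠ 0 := fun h => h1 (by rw [h]; exact dvd_zero _)
        have h3 : 0 < r (k0 + (s i : ZMod n) * m) ^ 2 + y (k0 + (s i : ZMod n) * m) ^ 2 := by
          positivity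
        exact Int.le_of_dvd h3 (h5 _)
      have := card_nsmul_le_sum _ _ _ hge
      simp at this
      linarith
    obtain ⟨k, hk, hk1, hk2⟩ := hgood
    have hyk : y k ≠ 0 := fun h => hk (by rw [h]; exact dvd_zero _)
    have hne : k ≠ k + m := by
      intro h
      exact hm0 (by simpa using h.symm)
    have hbig : (25 : ℤ) ≤ r (k + m) ^ 2 + y (k + m) ^ 2 := by
      have hlem : ∀ x : ℤ, (5 : ℤ) ∣ x → x ≠ 0 → 25 ≤ x ^ 2 := by
        rintro x ⟨w, rfl⟩ hx
        have hw : w ≠ 0 := fun h => hx (by rw [h]; simp)
        have : 0 < w ^ 2 := by positivity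
        nlinarith
      by_cases hy : y (k + m) = 0
      · have h1 := hr (k + m)
        have e1 : k + m - m = k := by ring
        have e2 : k + m + m = k + 2 * m := by ring
        rw [e1, e2, hy] at h1
        obtain ⟨w, hw⟩ := hk2
        have hr5 : (5 : ℤ) ∣ r (k + m) := by
          rw [h1]
          exact ⟨5 * a (k + m) + 2 * (y k - y (k + 2 * m)), by ring⟩
        have hr0 : r (k + m) ≠ 0 := by
          intro h0
          rw [h0, hw] at h1
          apply hk
          have : (5 : ℤ) ∣ 2 * y k := ⟨-a (k + m) * 1 + 2 * w - 0, by linarith⟩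
          exact (Int.isCoprime_iff_gcd_eq_one.2 (by norm_num)).dvd_of_dvd_mul_left this
        have := hlem _ hr5 hr0
        nlinarith [sq_nonneg (y (k + m))]
      · have := hlem _ hk1 hy
        nlinarith [sq_nonneg (r (k + m))]
    have hle : ∑ l ∈ ({k, k + m} : Finset (ZMod n)), (r l ^ 2 + y l ^ 2) ≤ 25 := by
      rw [← hsum]
      exact sum_le_univ_sum_of_nonneg hnn
    rw [sum_pair hne] at hle
    have : 0 < r k ^ 2 + y k ^ 2 := by positivity
    linarith

end Pool.Agent.W594.Herm
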