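import Pool.Agent.W594.Herm1

set_option autoImplicit false

/-! The group ring `ℤ[C_n]` with its involution, and the forms over it. -/

namespace Pool.Agent.W594.Herm

open Finset AddMonoidAlgebra

/-- the group ring of the cyclic group of order `n` -/
abbrev GR (n : ℕ) := AddMonoidAlgebra ℤ (ZMod n)

/-- the involution of the group ring -/
noncomputable def inv (n : ℕ) : GR n ≃+* GR n :=
  AddMonoidAlgebra.mapDomainRingEquiv ℤ (AddEquiv.neg (ZMod n))

theorem inv_single (n : ℕ) (k : ZMod n) (r : ℤ) : inv n (single k r) = single (-k) r := by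
  simp [inv]

theorem inv_coeff (n : ℕ) (x : GR n) (k : ZMod n) : (inv n x).coeff k = x.coeff (-k) := by
  simp [inv, AddMonoidAlgebra.coeff_mapDomainRingEquiv]

theorem inv_inv (n : ℕ) (x : GR n) : inv n (inv n x) = x := by
  ext k
  rw [inv_coeff, inv_coeff, neg_neg]

theorem coeff_inv_mul (n : ℕ) [NeZero n] (x : GR n) :
    (inv n x * x).coeff 0 = ∑ k, x.coeff k ^ 2 := by
  rw [AddMonoidAlgebra.coeff_mul_apply_right]
  rw [Finsupp.sum_fintype]
  · refine sum_congr rfl fun k _ => ?_
    rw [inv_coeff]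
    simp [sq]
  · intro i
    simp

/-- if the sum of squares of the coefficients vanishes the element vanishes -/
theorem eq_zero_of_sum_sq (n : ℕ) [NeZero n] (x : GR n) (h : ∑ k, x.coeff k ^ 2 = 0) : x = 0 := by
  ext k
  have := (sum_eq_zero_iff_of_nonneg (fun k _ => sq_nonneg (x.coeff k))).1 h k (mem_univ k)
  simpa using this

/-- the entry `B = 7 + 10 (t - t⁻¹)` -/
noncomputable def Be (n : ℕ) (m : ZMod n) : GR n := 7 + 10 * (single m 1 - single (-m) 1)

/-- the entry `D = 10 - 4 (t² + t⁻²)` -/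
noncomputable def De (n : ℕ) (m : ZMod n) : GR n := 10 - 4 * (single (2 * m) 1 + single (-(2 * m)) 1)

theorem inv_Be (n : ℕ) (m : ZMod n) : inv n (Be n m) = 7 - 10 * (single m 1 - single (-m) 1) := by
  unfold Be
  simp only [map_add, map_mul, map_sub, map_ofNat, inv_single, neg_neg]
  ring

theorem det_id (n : ℕ) (m : ZMod n) : 25 * De n m = Be n m * inv n (Be n m) + 1 := by
  rw [inv_Be]
  unfold Be De
  have h1 : (single (2 * m) 1 : GR n) = single m 1 * single m 1 := by
    rw [single_mul_single]; simp [two_mul]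
  have h2 : (single (-(2 * m)) 1 : GR n) = single (-m) 1 * single (-m) 1 := by
    rw [single_mul_single]; congr 1; ring_nf
  have h3 : (single m 1 : GR n) * single (-m) 1 = 1 := by
    rw [single_mul_single]; simp [one_def]
  rw [h1, h2]
  linear_combination (-200 : GR n) * h3

theorem key (n : ℕ) [NeZero n] (m : ZMod n)
    (hm : ∀ a : ℕ, 0 < a → a ≤ 10 → (a : ZMod n) * m ≠ 0) {ι : Type*} [Fintype ι]
    (v0 v1 : GR n) (z : ι → GR n)
    (h : 25 * (inv n v0 * v0) + inv n v0 * Be n m * v1 + inv n v1 * inv n (Be n m) * v0 +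
      inv n v1 * De n m * v1 + ∑ l, inv n (z l) * z l = 1) : v0 = 0 ∧ v1 = 0 := by
  set r : GR n := 25 * v0 + Be n m * v1 with hrdef
  have h1 : inv n r * r + inv n v1 * v1 + 25 * ∑ l, inv n (z l) * z l = 25 := by
    have hd := det_id n m
    have : inv n r = 25 * inv n v0 + inv n (Be n m) * inv n v1 := by
      rw [hrdef]; simp only [map_add, map_mul, map_ofNat]
    rw [this, hrdef]
    linear_combination (25 : GR n) * h - inv n v1 * v1 * hd
  have hc : ∑ k, (r.coeff k ^ 2 + v1.coeff k ^ 2) + 25 * ∑ l, ∑ k, (z l).coeff k ^ 2 = 25 := by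
    have h2 := congrArg (fun x : GR n => x.coeff 0) h1
    simp only [coeff_add, Finsupp.add_apply] at h2
    rw [coeff_inv_mul, coeff_inv_mul] at h2
    have h3 : ((25 : GR n) * ∑ l, inv n (z l) * z l).coeff 0 =
        25 * ∑ l, ∑ k, (z l).coeff k ^ 2 := by
      have : (25 : GR n) * ∑ l, inv n (z l) * z l = (25 : ℤ) • ∑ l, inv n (z l) * z l := by
        rw [zsmul_eq_mul]; norm_num
      rw [this, AddMonoidAlgebra.coeff_smul]
      simp only [Finsupp.smul_apply, smul_eq_mul]
      rw [AddMonoidAlgebra.coeff_sum, Finsupp.finsetSum_apply]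
      congr 1
      exact sum_congr rfl fun l _ => coeff_inv_mul n (z l)
    have h4 : ((25 : GR n)).coeff 0 = 25 := by
      have : (25 : GR n) = single 0 25 := rfl
      rw [this]; simp
    rw [h3, h4] at h2
    rw [sum_add_distrib]
    exact h2
  have hrk : ∀ k, r.coeff k = 25 * v0.coeff k + 7 * v1.coeff k +
      10 * (v1.coeff (k - m) - v1.coeff (k + m)) := by
    intro k
    have e1 : r = (25 : ℤ) • v0 + (7 : ℤ) • v1 +
        (10 : ℤ) • (single m 1 * v1 - single (-m) 1 * v1) := by
      rw [hrdef, Be]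
      simp only [zsmul_eq_mul]
      push_cast
      ring
    rw [e1]
    simp only [coeff_add, coeff_smul, coeff_sub, Finsupp.add_apply, Finsupp.smul_apply,
      Finsupp.sub_apply, smul_eq_mul]
    rw [coeff_single_mul_apply, coeff_single_mul_apply]
    simp only [one_mul]
    have e2 : -m + k = k - m := by ring
    have e3 : - -m + k = k + m := by ring
    rw [e2, e3]
  have hZ : 0 ≤ ∑ l, ∑ k, (z l).coeff k ^ 2 := sum_nonneg fun l _ => sum_nonneg fun k _ => sq_nonneg _
  have hR : 0 ≤ ∑ k, (r.coeff k ^ 2 + v1.coeff k ^ 2) := sum_nonneg fun k _ => by positivity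
  have hcase : ∑ l, ∑ k, (z l).coeff k ^ 2 = 0 ∨ ∑ l, ∑ k, (z l).coeff k ^ 2 = 1 := by omega
  rcases hcase with h0 | h0
  · rw [h0] at hc
    exact (no_norm_one n m hm (fun k => v0.coeff k) (fun k => r.coeff k) (fun k => v1.coeff k) hrk
      (by simpa using hc)).elim
  · rw [h0] at hc
    have h5 : ∑ k, (r.coeff k ^ 2 + v1.coeff k ^ 2) = 0 := by linarith
    rw [sum_add_distrib] at h5
    have h6 : 0 ≤ ∑ k, r.coeff k ^ 2 := sum_nonneg fun k _ => sq_nonneg _
    have h7 : 0 ≤ ∑ k, v1.coeff k ^ 2 := sum_nonneg fun k _ => sq_nonneg _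
    have hv1 : v1 = 0 := eq_zero_of_sum_sq n v1 (by linarith)
    have hr0 : r = 0 := eq_zero_of_sum_sq n r (by linarith)
    refine ⟨?_, hv1⟩
    ext k
    have := hrk k
    rw [hr0, hv1] at this
    simp at this
    simpa using this

end Pool.Agent.W594.Herm
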