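import Pool.Agent.W594.Herm2

set_option autoImplicit false
set_option linter.unusedSimpArgs false

/-! Hermitian matrices over `ℤ[t,t⁻¹]` and their reductions to `ℤ[C_n]`. -/

namespace Pool.Agent.W594.Herm

open LaurentPolynomial Matrix

/-- The conjugate transpose `A(t⁻¹)ᵀ` of a matrix over `ℤ[t,t⁻¹]`. -/
noncomputable def conjT {n : Type*} (A : Matrix n n ℤ[T;T⁻¹]) : Matrix n n ℤ[T;T⁻¹] :=
  (A.map (invert : ℤ[T;T⁻¹] → ℤ[T;T⁻¹]))ᵀ

/-- The hermitian forms with Gram matrices `A` and `B` are isometric. -/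
def Isometric {n : Type*} [Fintype n] [DecidableEq n] (A B : Matrix n n ℤ[T;T⁻¹]) : Prop :=
  ∃ U : Matrix n n ℤ[T;T⁻¹], IsUnit U.det ∧ conjT U * A * U = B

/-- reduction `t ^ n = 1` -/
noncomputable def φ (n : ℕ) : ℤ[T;T⁻¹] →+* GR n :=
  AddMonoidAlgebra.mapDomainRingHom ℤ (Int.castAddHom (ZMod n))

theorem φ_T (n : ℕ) (k : ℤ) : φ n (T k) = AddMonoidAlgebra.single (k : ZMod n) 1 := by
  unfold φ T
  rw [AddMonoidAlgebra.mapDomainRingHom_apply, AddMonoidAlgebra.mapDomain_single]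
  rfl

theorem φ_invert (n : ℕ) (f : ℤ[T;T⁻¹]) : φ n (invert f) = inv n (φ n f) := by
  have : (φ n).comp (invert (R := ℤ) : ℤ[T;T⁻¹] →+* ℤ[T;T⁻¹]) =
      ((inv n : GR n →+* GR n)).comp (φ n) := by
    apply AddMonoidAlgebra.ringHom_ext
    · intro r
      simp only [RingHom.comp_apply]
      have : (AddMonoidAlgebra.single (0 : ℤ) r : ℤ[T;T⁻¹]) = C r := rfl
      rw [this]
      simp
    · intro k
      simp only [RingHom.comp_apply]
      have : (AddMonoidAlgebra.single k 1 : ℤ[T;T⁻¹]) = T k := rfl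
      rw [this]
      simp [φ_T, inv_single]
  exact congrArg (fun g : ℤ[T;T⁻¹] →+* GR n => g f) this

/-- conjugate transpose over the group ring -/
noncomputable def conjG {n : ℕ} {ι : Type*} (A : Matrix ι ι (GR n)) : Matrix ι ι (GR n) :=
  (A.map (inv n))ᵀ

theorem conjG_mul {n : ℕ} {ι : Type*} [Fintype ι] (A B : Matrix ι ι (GR n)) :
    conjG (A * B) = conjG B * conjG A := by
  unfold conjG
  rw [← Matrix.transpose_mul]
  congr 1
  exact Matrix.map_mul (f := (inv n : GR n →+* GR n))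

theorem conjT_mul {ι : Type*} [Fintype ι] (A B : Matrix ι ι ℤ[T;T⁻¹]) :
    conjT (A * B) = conjT B * conjT A := by
  unfold conjT
  rw [← Matrix.transpose_mul]
  congr 1
  exact Matrix.map_mul (f := (invert (R := ℤ) : ℤ[T;T⁻¹] →+* ℤ[T;T⁻¹]))

theorem conjT_one {ι : Type*} [DecidableEq ι] :
    conjT (1 : Matrix ι ι ℤ[T;T⁻¹]) = 1 := by
  unfold conjT
  rw [Matrix.map_one _ (map_zero _) (map_one _), Matrix.transpose_one]

theorem conjG_one {n : ℕ} {ι : Type*} [DecidableEq ι] :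
    conjG (1 : Matrix ι ι (GR n)) = 1 := by
  unfold conjG
  rw [Matrix.map_one _ (map_zero _) (map_one _), Matrix.transpose_one]

theorem map_conjT (n : ℕ) {ι : Type*} (A : Matrix ι ι ℤ[T;T⁻¹]) :
    (conjT A).map (φ n) = conjG (A.map (φ n)) := by
  ext i j
  simp [conjT, conjG, φ_invert]

theorem Isometric.symm {ι : Type*} [Fintype ι] [DecidableEq ι] {A B : Matrix ι ι ℤ[T;T⁻¹]}
    (h : Isometric A B) : Isometric B A := by
  obtain ⟨U, hU, rfl⟩ := h
  refine ⟨U⁻¹, ?_, ?_⟩
  · rw [Matrix.isUnit_nonsing_inv_det_iff]; exact hU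
  · have h1 : U * U⁻¹ = 1 := Matrix.mul_nonsing_inv U hU
    have h2 : conjT U⁻¹ * conjT U = 1 := by rw [← conjT_mul, h1, conjT_one]
    calc conjT U⁻¹ * (conjT U * A * U) * U⁻¹ = (conjT U⁻¹ * conjT U) * A * (U * U⁻¹) := by
          simp only [Matrix.mul_assoc]
      _ = A := by rw [h1, h2, Matrix.one_mul, Matrix.mul_one]

/-- the rank two block -/
noncomputable def blk (m : ℤ) : Matrix (Fin 2) (Fin 2) ℤ[T;T⁻¹] :=
  !![25, 7 + 10 * (T m - T (-m)); 7 - 10 * (T m - T (-m)), 10 - 4 * (T (2 * m) + T (-(2 * m)))]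

/-- the form of rank `2 + d` -/
noncomputable def Am (d : ℕ) (m : ℤ) : Matrix (Fin 2 ⊕ Fin d) (Fin 2 ⊕ Fin d) ℤ[T;T⁻¹] :=
  Matrix.fromBlocks (blk m) 0 0 1

theorem det_blk (m : ℤ) : (blk m).det = 1 := by
  unfold blk
  rw [Matrix.det_fin_two_of]
  have h1 : (T (2 * m) : ℤ[T;T⁻¹]) = T m * T m := by rw [← T_add]; congr 1; ring
  have h2 : (T (-(2 * m)) : ℤ[T;T⁻¹]) = T (-m) * T (-m) := by rw [← T_add]; congr 1; ring
  have h3 : (T m : ℤ[T;T⁻¹]) * T (-m) = 1 := by rw [← T_add]; simp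
  rw [h1, h2]
  linear_combination (-200 : ℤ[T;T⁻¹]) * h3

theorem det_Am (d : ℕ) (m : ℤ) : (Am d m).det = 1 := by
  unfold Am
  rw [Matrix.det_fromBlocks_zero₂₁, det_blk, Matrix.det_one, mul_one]

theorem conjT_Am (d : ℕ) (m : ℤ) : conjT (Am d m) = Am d m := by
  unfold conjT Am
  rw [Matrix.fromBlocks_map, Matrix.fromBlocks_transpose]
  congr 1
  · unfold blk
    apply Matrix.ext
    intro i j
    have h25 : invert (25 : ℤ[T;T⁻¹]) = 25 := map_ofNat _ 25
    have h7 : invert (7 : ℤ[T;T⁻¹]) = 7 := map_ofNat _ 7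
    have h10 : invert (10 : ℤ[T;T⁻¹]) = 10 := map_ofNat _ 10
    have h4 : invert (4 : ℤ[T;T⁻¹]) = 4 := map_ofNat _ 4
    fin_cases i <;> fin_cases j
    · simp only [Fin.zero_eta, Fin.isValue, Matrix.transpose_apply, Matrix.map_apply,
        Matrix.of_apply, Matrix.cons_val', Matrix.cons_val_zero, Matrix.cons_val_fin_one, h25]
    · simp only [Fin.zero_eta, Fin.mk_one, Fin.isValue, Matrix.transpose_apply, Matrix.map_apply,
        Matrix.of_apply, Matrix.cons_val', Matrix.cons_val_zero, Matrix.cons_val_one,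
        Matrix.cons_val_fin_one, map_add, map_sub, map_mul, h7, h10, invert_T, neg_neg]
      ring
    · simp only [Fin.zero_eta, Fin.mk_one, Fin.isValue, Matrix.transpose_apply, Matrix.map_apply,
        Matrix.of_apply, Matrix.cons_val', Matrix.cons_val_zero, Matrix.cons_val_one,
        Matrix.cons_val_fin_one, map_add, map_sub, map_mul, h7, h10, invert_T, neg_neg]
      ring
    · simp only [Fin.mk_one, Fin.isValue, Matrix.transpose_apply, Matrix.map_apply,
        Matrix.of_apply, Matrix.cons_val', Matrix.cons_val_one,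
        Matrix.cons_val_fin_one, map_add, map_sub, map_mul, h4, h10, invert_T, neg_neg]
      ring
  · rw [Matrix.map_one _ (map_zero _) (map_one _), Matrix.transpose_one]

theorem map_blk (n : ℕ) (m : ℤ) : (blk m).map (φ n) =
    !![25, Be n (m : ZMod n); inv n (Be n (m : ZMod n)), De n (m : ZMod n)] := by
  rw [inv_Be]
  unfold blk Be De
  apply Matrix.ext
  intro i j
  have h25 : φ n (25 : ℤ[T;T⁻¹]) = 25 := map_ofNat _ 25
  have h7 : φ n (7 : ℤ[T;T⁻¹]) = 7 := map_ofNat _ 7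
  have h10 : φ n (10 : ℤ[T;T⁻¹]) = 10 := map_ofNat _ 10
  have h4 : φ n (4 : ℤ[T;T⁻¹]) = 4 := map_ofNat _ 4
  fin_cases i <;> fin_cases j <;> simp [φ_T, h25, h7, h10, h4]

/-- The key obstruction. -/
theorem not_isometric (n : ℕ) [NeZero n] (m : ℤ)
    (hm : ∀ a : ℕ, 0 < a → a ≤ 10 → (a : ZMod n) * (m : ZMod n) ≠ 0) (d : ℕ)
    (F : Matrix (Fin 2 ⊕ Fin d) (Fin 2 ⊕ Fin d) ℤ[T;T⁻¹])
    (P P' : Matrix (Fin 2 ⊕ Fin d) (Fin 2 ⊕ Fin d) (GR n)) (hP : P * P' = 1)
    (hF : F.map (φ n) = conjG P * P) : ¬ Isometric (Am d m) F := by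
  rintro ⟨U, hU, hUF⟩
  set V := U.map (φ n) with hV
  have h1 : conjG V * (Am d m).map (φ n) * V = conjG P * P := by
    rw [← hF, ← hUF, hV, ← map_conjT]
    rw [Matrix.map_mul, Matrix.map_mul]
  set W := V * P' with hW
  have hP'P : P' * P = 1 := mul_eq_one_comm.1 hP
  have h2 : conjG W * (Am d m).map (φ n) * W = 1 := by
    calc conjG W * (Am d m).map (φ n) * W
        = conjG P' * (conjG V * (Am d m).map (φ n) * V) * P' := by
          rw [hW, conjG_mul]; simp only [Matrix.mul_assoc]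
      _ = (conjG P' * conjG P) * (P * P') := by rw [h1]; simp only [Matrix.mul_assoc]
      _ = 1 := by rw [← conjG_mul, hP, conjG_one, Matrix.one_mul]
  have hrow : ∀ q, W (Sum.inl 0) q = 0 := by
    intro q
    have h3 := congrFun (congrFun h2 q) q
    rw [Matrix.one_apply_eq, Matrix.mul_assoc, Matrix.mul_apply] at h3
    have h4 := key n (m : ZMod n) hm (W (Sum.inl 0) q) (W (Sum.inl 1) q)
      (fun l : Fin d => W (Sum.inr l) q) (by
        rw [← h3, Fintype.sum_sum_type, Fin.sum_univ_two]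
        simp only [Matrix.mul_apply, Fintype.sum_sum_type, Fin.sum_univ_two]
        have e := map_blk n m
        have e00 := congrFun (congrFun e 0) 0
        have e01 := congrFun (congrFun e 0) 1
        have e10 := congrFun (congrFun e 1) 0
        have e11 := congrFun (congrFun e 1) 1
        simp only [Matrix.map_apply, Matrix.of_apply, Matrix.cons_val', Matrix.cons_val_zero,
          Matrix.cons_val_one, Matrix.cons_val_fin_one] at e00 e01 e10 e11
        simp only [conjG, Matrix.transpose_apply, Matrix.map_apply, Am,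
          Matrix.fromBlocks_apply₁₁, Matrix.fromBlocks_apply₁₂, Matrix.fromBlocks_apply₂₁,
          Matrix.fromBlocks_apply₂₂, Matrix.zero_apply, map_zero, zero_mul, Finset.sum_const_zero,
          add_zero, zero_add, e00, e01, e10, e11]
        have : ∀ l : Fin d, ∑ x : Fin d, (φ n) ((1 : Matrix (Fin d) (Fin d) ℤ[T;T⁻¹]) l x) *
            W (Sum.inr x) q = W (Sum.inr l) q := by
          intro l
          rw [Finset.sum_eq_single l]
          · simp
          · intro b _ hb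
            rw [Matrix.one_apply_ne hb.symm]; simp
          · simp
        simp only [this]
        ring)
    exact h4.1
  have hdetW : W.det = 0 := Matrix.det_eq_zero_of_row_eq_zero (Sum.inl 0) hrow
  have hVu : IsUnit V.det := by
    have : V.det = φ n U.det := by
      rw [hV]; exact (RingHom.map_det (φ n) U).symm
    rw [this]; exact hU.map _
  have hP'u : IsUnit P'.det := by
    have := congrArg Matrix.det hP
    rw [Matrix.det_mul, Matrix.det_one] at this
    exact IsUnit.of_mul_eq_one_right _ this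
  have : IsUnit W.det := by
    rw [hW, Matrix.det_mul]; exact hVu.mul hP'u
  rw [hdetW] at this
  exact not_isUnit_zero this

/-- the base change matrix with `Pᵀ P = (25, 7; 7, 2)` -/
noncomputable def Pm (n d : ℕ) : Matrix (Fin 2 ⊕ Fin d) (Fin 2 ⊕ Fin d) (GR n) :=
  Matrix.fromBlocks !![3, 1; 4, 1] 0 0 1

/-- its inverse -/
noncomputable def Pm' (n d : ℕ) : Matrix (Fin 2 ⊕ Fin d) (Fin 2 ⊕ Fin d) (GR n) :=
  Matrix.fromBlocks !![-1, 1; 4, -3] 0 0 1

theorem Pm_mul (n d : ℕ) : Pm n d * Pm' n d = 1 := by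
  unfold Pm Pm'
  rw [Matrix.fromBlocks_multiply]
  simp only [Matrix.zero_mul, Matrix.mul_zero, Matrix.mul_one, add_zero, zero_add]
  rw [← Matrix.fromBlocks_one]
  congr 1
  apply Matrix.ext
  intro a b
  fin_cases a <;> fin_cases b <;> simp [Matrix.mul_apply, Fin.sum_univ_two] <;> norm_num

theorem map_Am_of_zero (n d : ℕ) (m : ℤ) (hm : ((m : ℤ) : ZMod n) = 0) :
    (Am d m).map (φ n) = conjG (Pm n d) * Pm n d := by
  have t1 : φ n (T m) = 1 := by rw [φ_T, hm]; rfl
  have t2 : φ n (T (-m)) = 1 := by rw [φ_T]; push_cast; rw [hm, neg_zero]; rfl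
  have t3 : φ n (T (2 * m)) = 1 := by rw [φ_T]; push_cast; rw [hm, mul_zero]; rfl
  have t4 : φ n (T (-(2 * m))) = 1 := by rw [φ_T]; push_cast; rw [hm, mul_zero, neg_zero]; rfl
  unfold Am conjG Pm
  rw [Matrix.fromBlocks_map, Matrix.fromBlocks_map, Matrix.fromBlocks_transpose,
    Matrix.fromBlocks_multiply]
  have e3 : inv n (3 : GR n) = 3 := map_ofNat _ 3
  have e4 : inv n (4 : GR n) = 4 := map_ofNat _ 4
  have f25 : φ n (25 : ℤ[T;T⁻¹]) = 25 := map_ofNat _ 25
  have f7 : φ n (7 : ℤ[T;T⁻¹]) = 7 := map_ofNat _ 7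
  have f10 : φ n (10 : ℤ[T;T⁻¹]) = 10 := map_ofNat _ 10
  have f4 : φ n (4 : ℤ[T;T⁻¹]) = 4 := map_ofNat _ 4
  congr 1
  · apply Matrix.ext
    intro a b
    unfold blk
    fin_cases a <;> fin_cases b <;>
      simp [Matrix.mul_apply, Fin.sum_univ_two, e3, e4, f25, f7, f10, f4,
        t1, t2, t3, t4] <;> norm_num
  · apply Matrix.ext; intro a b; simp
  · apply Matrix.ext; intro a b; simp
  · rw [Matrix.map_one _ (map_zero _) (map_one _), Matrix.map_one _ (map_zero _) (map_one _)]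
    simp

end Pool.Agent.W594.Herm
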